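import Pool.Agent.Run7.h83.SD.RESA

/-!
# Affine covariance of the mean resolvent (core of piece AFC)
-/

set_option autoImplicit false

namespace Pool.Agent.Run7.h947.SD

open MeasureTheory Filter Pool.Agent.W792.LL Pool.Agent.W792.WA Pool.Agent.Run7.h47.SD
open Run7.h83.SD

variable {d : ℕ}

/-- The symbol of the Cayley transform. -/
noncomputable def cm (X : C(UnitAddTorus (Fin d), ℂ)) : C(UnitAddTorus (Fin d), ℂ) :=
  toC fun k => cayx (X k) 0

/-- `(X + V)⁻¹`. -/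
noncomputable def rX (X : C(UnitAddTorus (Fin d), ℂ)) (v : (Fin d → ℤ) → ℝ) :
    l2 (Fin d → ℤ) →L[ℂ] l2 (Fin d → ℤ) :=
  DD v * (rsv (cm X) v * opr (1 - cm X))

section symbol

variable {c : ℝ} {X : C(UnitAddTorus (Fin d), ℂ)}

theorem cont_cay (hc : 0 < c) (hX : ∀ k, (X k).im ≤ -c) :
    (∀ k, X k - Complex.I ≠ 0) ∧ Continuous fun k => cayx (X k) 0 := by
  have hne : ∀ k, X k - Complex.I ≠ 0 := by
    intro k h
    have h1 := congrArg Complex.im h
    have h2 := hX k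
    simp at h1
    linarith
  refine ⟨hne, ?_⟩
  have hcay : ∀ k, cayx (X k) 0 = (X k + Complex.I) / (X k - Complex.I) := by
    intro k
    simp [cayx]
  simp only [hcay]
  exact (X.continuous.add continuous_const).div (X.continuous.sub continuous_const) hne

theorem cm_apply (hc : 0 < c) (hX : ∀ k, (X k).im ≤ -c) (k : UnitAddTorus (Fin d)) :
    cm X k = (X k + Complex.I) / (X k - Complex.I) := by
  rw [cm, toC_apply (cont_cay hc hX).2]
  simp [cayx]

theorem norm_cm (hCX : S_CX) (hc : 0 < c) (hX : ∀ k, (X k).im ≤ -c) : ‖cm X‖ < 1 := by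
  obtain ⟨q, hq0, hq1, hq⟩ := hCX.2.2.1 0 ‖X‖ c hc
  have : ‖cm X‖ ≤ q := by
    rw [ContinuousMap.norm_le _ hq0]
    intro k
    rw [cm_apply hc hX k]
    have := hq (X k) 0 (X.norm_coe_le_norm k) (hX k) (by simp)
    simpa [cayx] using this
  linarith

theorem cm_mul1 (hc : 0 < c) (hX : ∀ k, (X k).im ≤ -c) :
    (1 - cm X) * (X + ct d Complex.I) = (-(2 * Complex.I)) • cm X := by
  ext k
  simp only [ContinuousMap.mul_apply, ContinuousMap.sub_apply, ContinuousMap.one_apply,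
    ContinuousMap.add_apply, ContinuousMap.smul_apply, smul_eq_mul, ct, ContinuousMap.const_apply]
  rw [cm_apply hc hX k]
  have := (cont_cay hc hX).1 k
  field_simp
  ring

theorem cm_mul2 (hc : 0 < c) (hX : ∀ k, (X k).im ≤ -c) :
    ((-1 / (2 * Complex.I)) • (X - ct d Complex.I)) * (1 - cm X) = 1 := by
  ext k
  simp only [ContinuousMap.mul_apply, ContinuousMap.sub_apply, ContinuousMap.one_apply,
    ContinuousMap.smul_apply, smul_eq_mul, ct, ContinuousMap.const_apply]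
  rw [cm_apply hc hX k]
  have := (cont_cay hc hX).1 k
  field_simp
  ring

theorem GX_eq (ν : Measure ℝ) [IsProbabilityMeasure ν] (hc : 0 < c) (hX : ∀ k, (X k).im ≤ -c) :
    GX ν X = (1 / (2 * Complex.I)) • ((cm X - 1) * (1 + (cm X - 1) * csym ν (cm X))) := by
  have hval : ∀ k, cayx (X k) 0 = cm X k := fun k => by
    rw [cm, toC_apply (cont_cay hc hX).2]
  have e1 : (fun k => (cayx (X k) 0 - 1) *
      (1 + (cayx (X k) 0 - 1) * csym ν (cm X) k) / (2 * Complex.I)) =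
      fun k => ((1 / (2 * Complex.I)) • ((cm X - 1) * (1 + (cm X - 1) * csym ν (cm X)))) k := by
    funext k
    rw [hval]
    simp only [ContinuousMap.mul_apply, ContinuousMap.sub_apply, ContinuousMap.one_apply,
      ContinuousMap.add_apply, ContinuousMap.smul_apply, smul_eq_mul]
    ring
  unfold GX
  change toC (fun k => (cayx (X k) 0 - 1) *
      (1 + (cayx (X k) 0 - 1) * csym ν (cm X) k) / (2 * Complex.I)) = _
  rw [e1]
  ext k
  exact toC_apply (ContinuousMap.continuous _) k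

end symbol

section ops

variable {c : ℝ} {X : C(UnitAddTorus (Fin d), ℂ)}

theorem fac (ho : S_OPR) (hd : S_DIA) (hc : 0 < c) (hX : ∀ k, (X k).im ≤ -c)
    (v : (Fin d → ℤ) → ℝ) :
    opr (1 - cm X) * (1 + opr (X + ct d Complex.I) * DD v) = 1 - opr (cm X) * dc v := by
  have e1 : opr (1 - cm X) * opr (X + ct d Complex.I) = -((2 * Complex.I) • opr (cm X)) := by
    rw [← opr_mul ho, cm_mul1 hc hX, opr_smul ho]
    exact neg_smul (2 * Complex.I) (opr (cm X))
  rw [mul_add, mul_one, ← mul_assoc, e1, opr_sub ho, opr_one ho, dc_eq hd, mul_add, mul_one,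
    neg_mul, smul_mul_assoc, mul_smul_comm]
  abel

/-- `(X + V)⁻¹ (1 + (X + i) D) = D`. -/
theorem rX_mul (ho : S_OPR) (hd : S_DIA) (hcs : S_CSYM) (hCX : S_CX) (hc : 0 < c)
    (hX : ∀ k, (X k).im ≤ -c) (v : (Fin d → ℤ) → ℝ) :
    rX X v * (1 + opr (X + ct d Complex.I) * DD v) = DD v := by
  obtain ⟨-, hr1, hr2⟩ := (hcs (Measure.dirac 0) d (cm X) (norm_cm hCX hc hX)).1 v
  unfold rX
  rw [mul_assoc, mul_assoc, fac ho hd hc hX, hr2, mul_one]

/-- `(1 + (X + i) D) (rsv (1 - m)) = 1`. -/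
theorem mul_rs (ho : S_OPR) (hd : S_DIA) (hcs : S_CSYM) (hCX : S_CX) (hc : 0 < c)
    (hX : ∀ k, (X k).im ≤ -c) (v : (Fin d → ℤ) → ℝ) :
    (1 + opr (X + ct d Complex.I) * DD v) * (rsv (cm X) v * opr (1 - cm X)) = 1 := by
  obtain ⟨-, hr1, hr2⟩ := (hcs (Measure.dirac 0) d (cm X) (norm_cm hCX hc hX)).1 v
  set B := opr ((-1 / (2 * Complex.I)) • (X - ct d Complex.I)) with hB
  have h1 : B * opr (1 - cm X) = 1 := by
    rw [hB, ← opr_mul ho, cm_mul2 hc hX, opr_one ho]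
  have h2 : (1 + opr (X + ct d Complex.I) * DD v) = B * (1 - opr (cm X) * dc v) := by
    rw [← fac ho hd hc hX, ← mul_assoc, h1, one_mul]
  calc (1 + opr (X + ct d Complex.I) * DD v) * (rsv (cm X) v * opr (1 - cm X))
      = B * ((1 - opr (cm X) * dc v) * rsv (cm X) v) * opr (1 - cm X) := by
        rw [h2]
        simp only [mul_assoc]
    _ = 1 := by rw [hr1, mul_one, h1]

/-- `D = D' (α + γ D)`. -/
theorem DD_aff (hd : S_DIA) (α β : ℝ) (v : (Fin d → ℤ) → ℝ) :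
    DD (fun x => α * v x + β) *
      ((α : ℂ) • (1 : l2 (Fin d → ℤ) →L[ℂ] l2 (Fin d → ℤ)) +
        ((β : ℂ) - Complex.I + α * Complex.I) • DD v) = DD v := by
  ext u x
  have h1 : (DD (fun x => α * v x + β) *
      ((α : ℂ) • (1 : l2 (Fin d → ℤ) →L[ℂ] l2 (Fin d → ℤ)) +
        ((β : ℂ) - Complex.I + α * Complex.I) • DD v)) u x =
      dd (α * v x + β) * ((α : ℂ) * u x + ((β : ℂ) - Complex.I + α * Complex.I) * (DD v u x)) := by
    rw [mul_apply_eq_comp, DD_apply hd]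
    rfl
  rw [h1, DD_apply hd]
  unfold dd
  have e1 := den_ne (v x)
  have e2 := den_ne (α * v x + β)
  push_cast at e2 ⊢
  field_simp
  ring

theorem im_aff {α : ℝ} (β : ℝ) (hα : 0 < α) (hX : ∀ k, (X k).im ≤ -c) (k : UnitAddTorus (Fin d)) :
    (((α : ℂ)⁻¹ • (X + ct d (β : ℂ)) : C(UnitAddTorus (Fin d), ℂ)) k).im ≤ -(c / α) := by
  simp only [ContinuousMap.smul_apply, ContinuousMap.add_apply, ct, ContinuousMap.const_apply,
    smul_eq_mul]
  rw [← Complex.ofReal_inv, Complex.im_ofReal_mul, Complex.add_im, Complex.ofReal_im, add_zero,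
    div_eq_inv_mul, ← mul_neg]
  exact mul_le_mul_of_nonneg_left (hX k) (by positivity)

/-- `(X + α V + β)⁻¹ = α⁻¹ ((X + β) / α + V)⁻¹`. -/
theorem rX_aff (ho : S_OPR) (hd : S_DIA) (hcs : S_CSYM) (hCX : S_CX) (hc : 0 < c)
    (hX : ∀ k, (X k).im ≤ -c) {α : ℝ} (β : ℝ) (hα : 0 < α) (v : (Fin d → ℤ) → ℝ) :
    rX X (fun x => α * v x + β) = (α : ℂ)⁻¹ • rX ((α : ℂ)⁻¹ • (X + ct d (β : ℂ))) v := by
  have hα' : (α : ℂ) ≠ 0 := by exact_mod_cast hα.ne'
  set X' : C(UnitAddTorus (Fin d), ℂ) := (α : ℂ)⁻¹ • (X + ct d (β : ℂ)) with hX'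
  have hXi := im_aff β hα hX
  have hc' : 0 < c / α := div_pos hc hα
  set E : l2 (Fin d → ℤ) →L[ℂ] l2 (Fin d → ℤ) := (α : ℂ) • 1 +
        ((β : ℂ) - Complex.I + α * Complex.I) • DD v with hE
  have h1 : DD (fun x => α * v x + β) * E = DD v := DD_aff hd α β v
  have h2 := rX_mul ho hd hcs hCX hc hX (fun x => α * v x + β)
  have h3 := mul_rs ho hd hcs hCX hc' hXi v
  -- `A' E = α A`
  have h4 : (1 + opr (X + ct d Complex.I) * DD (fun x => α * v x + β)) * E =
      (α : ℂ) • (1 + opr (X' + ct d Complex.I) * DD v) := by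
    rw [add_mul, one_mul, mul_assoc, h1]
    have h5 : (α : ℂ) • (X' + ct d Complex.I) =
        (X + ct d Complex.I) + ((β : ℂ) - Complex.I + α * Complex.I) •
          (1 : C(UnitAddTorus (Fin d), ℂ)) := by
      rw [hX']
      ext k
      simp only [ContinuousMap.smul_apply, ContinuousMap.add_apply, ct,
        ContinuousMap.const_apply, smul_eq_mul, ContinuousMap.one_apply]
      field_simp
      ring
    have h6 : (α : ℂ) • (1 + opr (X' + ct d Complex.I) * DD v) =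
        (α : ℂ) • 1 + opr ((α : ℂ) • (X' + ct d Complex.I)) * DD v := by
      rw [smul_add, opr_smul ho, smul_mul_assoc]
    rw [h6, h5, opr_add ho (X + ct d Complex.I)
      (((β : ℂ) - Complex.I + α * Complex.I) • (1 : C(UnitAddTorus (Fin d), ℂ))),
      opr_smul ho ((β : ℂ) - Complex.I + α * Complex.I), opr_one ho, hE, add_mul,
      smul_mul_assoc, one_mul]
    abel
  have h7 : rX X (fun x => α * v x + β) = rX X (fun x => α * v x + β) *
      ((1 + opr (X' + ct d Complex.I) * DD v) * (rsv (cm X') v * opr (1 - cm X'))) := by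
    rw [h3, mul_one]
  have h8 : (1 + opr (X' + ct d Complex.I) * DD v) =
      (α : ℂ)⁻¹ • ((1 + opr (X + ct d Complex.I) * DD (fun x => α * v x + β)) * E) := by
    rw [h4, smul_smul, inv_mul_cancel₀ hα', one_smul]
  rw [h7, h8]
  have h9 : rX X (fun x => α * v x + β) *
      ((α : ℂ)⁻¹ • ((1 + opr (X + ct d Complex.I) * DD (fun x => α * v x + β)) * E) *
        (rsv (cm X') v * opr (1 - cm X'))) =
      (α : ℂ)⁻¹ • ((rX X (fun x => α * v x + β) *
        (1 + opr (X + ct d Complex.I) * DD (fun x => α * v x + β))) * E *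
        (rsv (cm X') v * opr (1 - cm X'))) := by
    simp only [smul_mul_assoc, mul_smul_comm, mul_assoc]
  rw [h9, h2, h1]
  rfl

theorem rX_coord (hd : S_DIA) (X : C(UnitAddTorus (Fin d), ℂ)) (v : (Fin d → ℤ) → ℝ)
    (x : Fin d → ℤ) :
    rX X v (dl 0) x = (1 / (2 * Complex.I)) *
      ((dc v (rsv (cm X) v (opr (1 - cm X) (dl 0)))) x -
        (rsv (cm X) v (opr (1 - cm X) (dl 0))) x) := by
  change (DD v (rsv (cm X) v (opr (1 - cm X) (dl 0)))) x = _
  rw [DD_eq hd]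
  rfl

theorem mean (ho : S_OPR) (hd : S_DIA) (hs : S_SYMB) (hcs : S_CSYM) (hCX : S_CX)
    (ν : Measure ℝ) [IsProbabilityMeasure ν] (hc : 0 < c) (hX : ∀ k, (X k).im ≤ -c)
    (x : Fin d → ℤ) :
    (Measurable fun v => rX X v (dl 0) x) ∧
    ∫ v, rX X v (dl 0) x ∂(Pn ν (Fin d → ℤ)) = UnitAddTorus.mFourierCoeff (GX ν X) x := by
  have hmn := norm_cm hCX hc hX
  have hv := fun v => rX_coord hd X v x
  obtain ⟨hcr, hcm, -⟩ := hcs ν d (cm X) hmn
  set m := cm X with hm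
  set C := csym ν m with hC
  set w : l2 (Fin d → ℤ) := opr (1 - m) (dl 0) with hw
  obtain ⟨hm1, hm2, hi2, hi1⟩ := hcm w x
  refine ⟨?_, ?_⟩
  · rw [show (fun v => rX X v (dl 0) x) = fun v => (1 / (2 * Complex.I)) *
      ((dc v (rsv m v w)) x - (rsv m v w) x) from funext hv]
    exact (hm2.sub hm1).const_mul _
  rw [integral_congr_ae (Eventually.of_forall hv), integral_const_mul]
  have hb1 : ∀ v, ‖(rsv m v w) x‖ ≤ 1 / (1 - ‖m‖) * ‖w‖ := fun v =>
    (coord_le _ x).trans ((ContinuousLinearMap.le_opNorm _ _).trans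
      (mul_le_mul_of_nonneg_right (hcr v).1 (norm_nonneg _)))
  have hb2 : ∀ v, ‖(dc v (rsv m v w)) x‖ ≤ 1 / (1 - ‖m‖) * ‖w‖ := fun v => by
    rw [dc_apply hd, norm_mul]
    calc ‖cay (v x)‖ * ‖(rsv m v w) x‖ ≤ 1 * (1 / (1 - ‖m‖) * ‖w‖) :=
          mul_le_mul (norm_cay _) (hb1 v) (norm_nonneg _) zero_le_one
      _ = _ := one_mul _
  have hI1 : Integrable (fun v => (rsv m v w) x) (Pn ν (Fin d → ℤ)) :=
    Integrable.of_bound hm1.aestronglyMeasurable _ (Eventually.of_forall hb1)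
  have hI2 : Integrable (fun v => (dc v (rsv m v w)) x) (Pn ν (Fin d → ℤ)) :=
    Integrable.of_bound hm2.aestronglyMeasurable _ (Eventually.of_forall hb2)
  rw [integral_sub hI2 hI1, hi2, hi1, GX_eq ν hc hX]
  have h5 := (hs d).2.2.2.2 ((1 / (2 * Complex.I)) • ((m - 1) * (1 + (m - 1) * C))) x 0
  rw [sub_zero] at h5
  rw [← hm, ← hC, ← h5]
  have h6 : (1 / (2 * Complex.I)) • ((m - 1) * (1 + (m - 1) * C)) =
      (1 / (2 * Complex.I)) • (C - (1 + m * C)) * (1 - m) := by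
    rw [smul_mul_assoc]
    congr 1
    ring
  have h7 : opr ((1 / (2 * Complex.I)) • (C - (1 + m * C)) * (1 - m)) =
      ((1 / (2 * Complex.I)) • (opr C - (1 + opr (m * C)))) * opr (1 - m) := by
    rw [opr_mul ho, opr_smul ho, opr_sub ho, opr_add ho, opr_one ho]
  rw [h6, h7]
  rfl

end ops

/-- Fourier coefficients determine the symbol. -/
theorem sym_ext (ho : S_OPR) (hs : S_SYMB) {a b : C(UnitAddTorus (Fin d), ℂ)}
    (h : ∀ x, UnitAddTorus.mFourierCoeff a x = UnitAddTorus.mFourierCoeff b x) : a = b := by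
  have h1 : opr a = opr b := by
    ext u x
    rw [((ho d a b).1 u x).2, ((ho d b a).1 u x).2]
    simp only [h]
  have h2 : opr (a - b) = 0 := by rw [opr_sub ho, h1, sub_self]
  have h3 := (hs d).2.1 (a - b)
  rw [h2, norm_zero] at h3
  exact sub_eq_zero.1 (norm_eq_zero.1 h3.symm)

/-- The product law of an image. -/
theorem Pn_map (ν ν' : Measure ℝ) [IsProbabilityMeasure ν] [IsProbabilityMeasure ν'] (f : ℝ → ℝ)
    (hf : Measurable f) (h : ν' = ν.map f) (Γ : Type) :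
    Pn ν' Γ = (Pn ν Γ).map fun v x => f (v x) := by
  subst h
  unfold Pn
  rw [Measure.infinitePi_map_pi (μ := fun _ : Γ => ν) (f := fun _ => f) fun _ => hf]

/-- **Affine covariance**: `E (X + α V + β)⁻¹ = α⁻¹ E ((X + β) / α + V)⁻¹`. -/
theorem GX_aff (ho : S_OPR) (hd : S_DIA) (hs : S_SYMB) (hcs : S_CSYM) (hCX : S_CX)
    (ν ν' : Measure ℝ) [IsProbabilityMeasure ν] [IsProbabilityMeasure ν'] {α : ℝ} (β : ℝ)
    (hα : 0 < α) (hν : ν' = ν.map fun v => α * v + β) {c : ℝ} {X : C(UnitAddTorus (Fin d), ℂ)}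
    (hc : 0 < c) (hX : ∀ k, (X k).im ≤ -c) :
    GX ν' X = (α : ℂ)⁻¹ • GX ν ((α : ℂ)⁻¹ • (X + ct d (β : ℂ))) := by
  have hf : Measurable fun v : ℝ => α * v + β := by fun_prop
  refine sym_ext ho hs fun x => ?_
  have h1 := mean ho hd hs hcs hCX ν' hc hX x
  have h2 := mean ho hd hs hcs hCX ν (div_pos hc hα) (im_aff β hα hX) x
  have h3 : UnitAddTorus.mFourierCoeff
      ((α : ℂ)⁻¹ • GX ν ((α : ℂ)⁻¹ • (X + ct d (β : ℂ)))) x =
      (α : ℂ)⁻¹ * UnitAddTorus.mFourierCoeff (GX ν ((α : ℂ)⁻¹ • (X + ct d (β : ℂ)))) x := by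
    have h5 := (hs d).2.2.2.2 ((α : ℂ)⁻¹ • GX ν ((α : ℂ)⁻¹ • (X + ct d (β : ℂ)))) x 0
    have h6 := (hs d).2.2.2.2 (GX ν ((α : ℂ)⁻¹ • (X + ct d (β : ℂ)))) x 0
    rw [sub_zero] at h5 h6
    rw [← h5, ← h6, opr_smul ho]
    rfl
  rw [h3, ← h1.2, ← h2.2, Pn_map ν ν' _ hf hν, integral_map]
  · rw [← integral_const_mul]
    refine integral_congr_ae (Eventually.of_forall fun v => ?_)
    change rX X (fun x => α * v x + β) (dl 0) x = _
    rw [rX_aff ho hd hcs hCX hc hX β hα v]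
    rfl
  · exact Measurable.aemeasurable (by fun_prop)
  · exact h1.1.aestronglyMeasurable

end Pool.Agent.Run7.h947.SD
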