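import Pool.Agent.Run7.h47.SD.Iface2
import Pool.Agent.Run7.h947.SD.Aff
import Pool.Agent.W792.WA.All

/-!
# Project SD (helper47), stage 2, piece AFC
-/

set_option autoImplicit false

namespace Pool.Agent.Run7.h947.SD

open MeasureTheory Filter Pool.Agent.W792.LL Pool.Agent.W792.WA Pool.Agent.Run7.h47.SD

/-- **AFC**, with the facts on operators as hypotheses. -/
theorem afc_of (ho : S_OPR) (hd : S_DIA) (hs : S_SYMB) (hcs : S_CSYM) (hCX : S_CX) : S_AFC := by
  intro ν _ d c lam e X _ hc hX hlam k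
  have hl : (lam : ℂ) ≠ 0 := by exact_mod_cast hlam.ne'
  set X' : C(UnitAddTorus (Fin d), ℂ) := (lam : ℂ) • (X + ct d e) with hX'
  have hX1 : ∀ k, (X' k).im ≤ -(lam * c) := by
    intro k
    rw [hX']
    simp only [ContinuousMap.smul_apply, ContinuousMap.add_apply, ct, ContinuousMap.const_apply,
      smul_eq_mul]
    rw [Complex.im_ofReal_mul, Complex.add_im, Complex.ofReal_im, add_zero, ← mul_neg]
    exact mul_le_mul_of_nonneg_left (hX k) hlam.le
  have hmap : (ν.map fun v => lam * (v - e)) = ν.map fun v => lam * v + (-(lam * e)) := by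
    congr 1
    funext v
    ring
  have h := GX_aff ho hd hs hcs hCX ν (ν.map fun v => lam * (v - e)) (-(lam * e)) hlam hmap
    (mul_pos hlam hc) hX1
  have hX2 : (lam : ℂ)⁻¹ • (X' + ct d ((-(lam * e) : ℝ) : ℂ)) = X := by
    rw [hX']
    ext k
    simp only [ContinuousMap.smul_apply, ContinuousMap.add_apply, ct, ContinuousMap.const_apply,
      smul_eq_mul]
    push_cast
    field_simp
    ring
  rw [hX2] at h
  rw [h, ContinuousMap.smul_apply, smul_eq_mul, ← mul_assoc, mul_inv_cancel₀ hl, one_mul]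

/-- **AFC**. -/
theorem t_AFC : S_AFC := afc_of Al.opr Al.dia Al.symb Al.csym Al.cx

end Pool.Agent.Run7.h947.SD
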